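import Pool.Agent.Run7.h328.SEP.HypK

/-!
# Sato-Tate moments for almost all Jacobian surfaces over every number field, with square-root error

Let `F` be a number field of degree `d` and `α ∈ 𝓞_F ^ 5`.  For `m ∈ ℤ ^ 5` let `A_m` be the Jacobian of the smooth projective curve
`y² = x⁵ + (α₄ + m₄) x⁴ + ... + (α₀ + m₀)` of genus `2`, and for a prime `v` of good reduction let `1 + a_1 T + a_2 T² + a_1 T³ + T⁴` be
the characteristic polynomial of the class `s(v)`.  The Sato-Tate group of a generic member of the family is `USp(4)`.  The test functions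
are the polynomials `a_1 ^ i a_2 ^ j` with `i + 2 j ≤ 5`, or `i ≤ 7` and `j = 0`; `moment i j` are their means over `USp(4)`.

We show: for `H` large in terms of `ε` and `d`, all number fields `F` of degree `d` and all `α`, all but a proportion
`H ^ (-ε/500)` of the `m ∈ [-H, H] ^ 5` have the property

`|∑ w(v) q_v ^ (-iτ) (a_1(v) ^ i a_2(v) ^ j - moment i j)| ≤ C (N ^ (1/2 + ε) + (log H) ^ (4/ε))`,  `q_v ≤ N`, `v` good,

for all pairs `(i, j)` above, all `N ≤ H ^ (ε/200)`, all `|τ| ≤ H ^ (ε/200)` and all `w` in a given set of at most `H ^ (ε/500)`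
arbitrary complex weights of absolute value at most `1` on the primes of `F` (Hecke characters, the indicator functions of arbitrary
sets of primes, ...), at the same time.  The constant `C` depends only on `d`.

Proof.  At the primes of degree one over the prime number `p`, i.e. at the homomorphisms `φ : 𝓞_F → F_p`, the means over all `m`
modulo `p` are those of `USp(4)` up to `O(1/p)`, by the independence of the values of a random monic polynomial of degree `5` at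
points and pairs of conjugate points (starting library `Y57.FD`, `V11210.G2`) and translation by `φ(α)`.  The residues of `m`
modulo the square-free numbers up to a power of `H` are uniformly distributed; hence the `2 j`-th moment of the sum over
the prime numbers in `(y, 2 y]`, for `j` about `log H / log y`, is at most `(C j y) ^ j`.  We take the union over all `N`, the weights
and a grid of `τ`.  The primes of higher degree contribute `O(N ^ (1/2))`.
-/

set_option autoImplicit false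

open Filter

namespace Pool.Agent.Results.MP_6dc561_nt.EveryNumberField

open NumberField IsDedekindDomain Finset

/-- The number of the solutions of `y ^ 2 = x ^ 5 + c_4 x ^ 4 + ... + c_0` in `R`. -/
noncomputable def points {R : Type} [CommRing R] (c : Fin 5 → R) : ℕ :=
  Nat.card {P : R × R // P.2 ^ 2 = P.1 ^ 5 + ∑ i, c i * P.1 ^ (i : ℕ)}

/-- The number of the solutions of `y ^ 2 = x ^ 5 + c_4 x ^ 4 + ... + c_0` in the extension of degree `2` of the finite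
field `k`. -/
noncomputable def points₂ (k : Type) [Field k] [Finite k] (c : Fin 5 → k) : ℕ :=
  haveI : Fact (ringChar k).Prime := ⟨CharP.char_is_prime k (ringChar k)⟩
  points (fun i => algebraMap k (FiniteField.Extension k (ringChar k) 2) (c i))

variable {F : Type} [Field F] [NumberField F]

/-- `q_v`, the norm of `v`. -/
noncomputable def q (v : HeightOneSpectrum (𝓞 F)) : ℕ := Ideal.absNorm v.asIdeal

/-- The coefficients modulo `v`. -/
noncomputable def bar (v : HeightOneSpectrum (𝓞 F)) (c : Fin 5 → 𝓞 F) : Fin 5 → 𝓞 F ⧸ v.asIdeal :=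
  fun i => Ideal.Quotient.mk v.asIdeal (c i)

/-- `v` does not divide `2` and the polynomial `x ^ 5 + c_4 x ^ 4 + ... + c_0` is separable modulo `v`, so that the curve is smooth
modulo `v`. -/
def Good (v : HeightOneSpectrum (𝓞 F)) (c : Fin 5 → 𝓞 F) : Prop :=
  (2 : 𝓞 F) ∉ v.asIdeal ∧
    (Polynomial.X ^ 5 + ∑ i, Polynomial.C (bar v c i) * Polynomial.X ^ (i : ℕ) : Polynomial (𝓞 F ⧸ v.asIdeal)).Separable

/-- The coefficient `a_1` of the normalised Euler factor `1 + a_1 T + a_2 T ^ 2 + a_1 T ^ 3 + T ^ 4`: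
`(#C(k_v) - (q_v + 1)) / q_v ^ (1 / 2)`; there is one point at infinity. -/
noncomputable def a₁ (v : HeightOneSpectrum (𝓞 F)) (c : Fin 5 → 𝓞 F) : ℝ :=
  (((points (bar v c) : ℝ) + 1) - ((q v : ℝ) + 1)) / Real.sqrt (q v)

/-- The coefficient `a_2` of the normalised Euler factor:
`((#C(k_v) - (q_v + 1)) ^ 2 + #C(k_v,2) - (q_v ^ 2 + 1)) / (2 q_v)`, with the extension `k_v,2` of degree `2` of `k_v`. -/
noncomputable def a₂ (v : HeightOneSpectrum (𝓞 F)) (c : Fin 5 → 𝓞 F) : ℝ :=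
  ((((points (bar v c) : ℝ) + 1) - ((q v : ℝ) + 1)) ^ 2 +
    (((points₂ (𝓞 F ⧸ v.asIdeal) (bar v c) : ℝ) + 1) - ((q v : ℝ) ^ 2 + 1))) / (2 * q v)

/-- The mean of `a_1 ^ i a_2 ^ j` over the characteristic polynomials `1 + a_1 T + a_2 T ^ 2 + a_1 T ^ 3 + T ^ 4` of the matrices
in `USp(4)` (for the pairs `(i, j)` used below). -/
def moment : ℕ → ℕ → ℝ
  | 0, 0 => 1
  | 2, 0 => 1
  | 4, 0 => 3
  | 6, 0 => 14
  | 0, 1 => 1
  | 2, 1 => 2
  | 0, 2 => 2
  | _, _ => 0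

open Classical in
/-- The sum over the primes `v` of `F` of good reduction with `q_v ≤ N`. -/
noncomputable def primeSum (c : Fin 5 → 𝓞 F) (w : HeightOneSpectrum (𝓞 F) → ℂ) (i j N : ℕ) (τ : ℝ) : ℂ :=
  ∑' v : HeightOneSpectrum (𝓞 F), if q v ≤ N ∧ Good v c then
    w v * (q v : ℂ) ^ (-(τ * Complex.I) : ℂ) * ((a₁ v c ^ i * a₂ v c ^ j - moment i j : ℝ) : ℂ) else 0

/-- The box `[-H, H] ^ 5`. -/
noncomputable def cube (H : ℕ) : Finset (Fin 5 → ℤ) := Fintype.piFinset fun _ => Icc (-(H : ℤ)) H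

lemma moment_eq (i j : ℕ) (h : i + 2 * j ≤ 5 ∨ (i ≤ 7 ∧ j = 0)) : moment i j = Pool.Agent.V11210.G2.mm 2 i j := by
  have hj : j ≤ 2 := by omega
  have hi : i ≤ 7 := by omega
  unfold Pool.Agent.V11210.G2.mm Pool.Agent.Y57.FD.Mom.usp Pool.Agent.Y57.FD.Mom.normal
  interval_cases j <;> interval_cases i <;> first
    | omega
    | (simp [moment, Nat.doubleFactorial, Nat.even_iff]; done)
    | (simp [moment, Nat.doubleFactorial, Nat.even_iff]; norm_num)

lemma a₁_eq (v : HeightOneSpectrum (𝓞 F)) (c : Fin 5 → 𝓞 F) :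
    a₁ v c = Run7.h328.SEP.HypK.a1 (𝓞 F ⧸ v.asIdeal) (bar v c) := by
  have h : Nat.card (𝓞 F ⧸ v.asIdeal) = q v := rfl
  unfold a₁ Run7.h328.SEP.HypK.a1
  rw [h]
  congr 1
  have : (points (bar v c) : ℝ) = (Run7.h328.SEP.HypK.N1 (bar v c) : ℝ) := rfl
  rw [this]
  ring

lemma a₂_eq (v : HeightOneSpectrum (𝓞 F)) (c : Fin 5 → 𝓞 F) :
    a₂ v c = Run7.h328.SEP.HypK.a2 (𝓞 F ⧸ v.asIdeal) (bar v c) := by
  have h : Nat.card (𝓞 F ⧸ v.asIdeal) = q v := rfl
  unfold a₂ Run7.h328.SEP.HypK.a2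
  rw [h]
  congr 1
  have e1 : (points (bar v c) : ℝ) = (Run7.h328.SEP.HypK.N1 (bar v c) : ℝ) := rfl
  have e2 : (points₂ (𝓞 F ⧸ v.asIdeal) (bar v c) : ℝ) = (Run7.h328.SEP.HypK.N2 (𝓞 F ⧸ v.asIdeal) (bar v c) : ℝ) := rfl
  rw [e1, e2]
  ring

open Run7.h328.SEP.HypK in
lemma primeSum_eq (c : Fin 5 → 𝓞 F) (w : HeightOneSpectrum (𝓞 F) → ℂ) (i j N : ℕ)
    (h : i + 2 * j ≤ 5 ∨ (i ≤ 7 ∧ j = 0)) (τ : ℝ) :
    primeSum c w i j N τ = ∑' v : HeightOneSpectrum (𝓞 F), if Pool.Agent.H921R2.TatePole.nm v ≤ N then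
      w v * (GG 2 (i, j) c v : ℂ) * ((Pool.Agent.H921R2.TatePole.nm v : ℕ) : ℂ) ^ (-((τ : ℂ) * Complex.I)) else 0 := by
  classical
  unfold primeSum
  refine tsum_congr fun v => ?_
  have hq : q v = Pool.Agent.H921R2.TatePole.nm v := rfl
  by_cases hN : q v ≤ N
  · rw [if_pos (show Pool.Agent.H921R2.TatePole.nm v ≤ N from hN)]
    unfold GG
    by_cases hg : Good v c
    · have hg' : GoodK v (D := 2 * 2 + 1) c := hg
      have e : a1 (𝓞 F ⧸ v.asIdeal) (rv v (D := 2 * 2 + 1) c) ^ i * a2 (𝓞 F ⧸ v.asIdeal) (rv v (D := 2 * 2 + 1) c) ^ j -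
          Pool.Agent.V11210.G2.mm 2 i j = a₁ v c ^ i * a₂ v c ^ j - moment i j := by
        rw [a₁_eq v c, a₂_eq v c, moment_eq i j h]
        rfl
      rw [if_pos ⟨hN, hg⟩, if_pos hg', e, hq]
      ring
    · have hg' : ¬ GoodK v (D := 2 * 2 + 1) c := hg
      rw [if_neg (fun h' => hg h'.2), if_neg hg']
      simp
  · rw [if_neg (show ¬ Pool.Agent.H921R2.TatePole.nm v ≤ N from hN), if_neg (fun h' => hN h'.1)]

/-- **The theorem.**  See the head of the file. -/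
theorem result (d : ℕ) : ∃ C : ℝ, 0 < C ∧ ∀ ε : ℝ, 0 < ε → ε ≤ 1 → ∃ H₀ : ℕ, ∀ H : ℕ, H₀ ≤ H →
    ∀ (F : Type) [Field F] [NumberField F], Module.finrank ℚ F = d → ∀ α : Fin 5 → 𝓞 F,
    ∀ W : Finset (HeightOneSpectrum (𝓞 F) → ℂ), (W.card : ℝ) ≤ (H : ℝ) ^ (ε / 500) → (∀ w ∈ W, ∀ v, ‖w v‖ ≤ 1) →
    ∃ X ⊆ cube H, (X.card : ℝ) ≤ (H : ℝ) ^ (-(ε / 500)) * (2 * H + 1) ^ 5 ∧
      ∀ m ∈ cube H \ X, ∀ w ∈ W, ∀ i j : ℕ, (i + 2 * j ≤ 5 ∨ (i ≤ 7 ∧ j = 0)) → ∀ (N : ℕ) (τ : ℝ),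
        (N : ℝ) ≤ (H : ℝ) ^ (ε / 200) → |τ| ≤ (H : ℝ) ^ (ε / 200) →
        ‖primeSum (fun k => α k + (m k : 𝓞 F)) w i j N τ‖ ≤ C * ((N : ℝ) ^ (1 / 2 + ε) + Real.log H ^ (4 / ε)) := by
  obtain ⟨C, hC, h⟩ := Run7.h328.SEP.HypK.hypK_main 2 d
  refine ⟨C, hC, fun ε hε hε1 => ?_⟩
  obtain ⟨H₀, h⟩ := Filter.eventually_atTop.1 (h ε hε hε1)
  refine ⟨H₀, fun H hH F _ _ hF α W hWc hW => ?_⟩
  obtain ⟨Ex, hE1, hE2, hE3⟩ := h H hH F hF α W hW hWc
  have hbox : Pool.Agent.Y722.HS.box (Fin (2 * 2 + 1)) H = cube H := rfl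
  have hcard : ((cube H).card : ℝ) = (2 * H + 1) ^ 5 := by
    unfold cube
    rw [Fintype.card_piFinset]
    simp only [Int.card_Icc, Finset.prod_const, Finset.card_univ, Fintype.card_fin]
    have : ((H : ℤ) + 1 - -(H : ℤ)).toNat = 2 * H + 1 := by omega
    rw [this]
    push_cast
    ring
  rw [hbox] at hE1 hE2 hE3
  refine ⟨Ex, hE1, ?_, ?_⟩
  · rw [← hcard]
    exact hE2
  · intro m hm w hw i j hij N τ hN hτ
    have hok : Run7.h328.SEP.Hyp.Ok 2 i j := by
      unfold Run7.h328.SEP.Hyp.Ok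
      omega
    rw [primeSum_eq _ w i j N hij τ]
    exact hE3 m hm w hw (i, j) hok N hN τ hτ

end Pool.Agent.Results.MP_6dc561_nt.EveryNumberField
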