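import Pool.Agent.Run7.h641.ST.G
import Pool.Agent.Run7.h300.ST.N
import Pool.Agent.Run7.h863.ST.W
import Pool.Agent.Run7.h863.ST.Z

/-!
# The Sato-Tate law from meromorphy on the line, over every number field

Let `K` be an arbitrary number field and let `a_1(v), …, a_r(v)` be real numbers with
`|a_i(v)| ≤ 2 √q_v` for the primes `v` outside a finite set `S`: the traces of Frobenius of `r` elliptic curves
over `K`, or (for example for an abelian surface `A` with real multiplication over `K`, `r = 2`) of the factors
of rank `2` of the `ℓ`-adic representations of abelian varieties. Let `θ_i(v) ∈ [0, π]` be the angle with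
`a_i(v) = 2 √q_v cos θ_i(v)` and let `L(s, m)`, `m ∈ ℕ^r`, be the Euler product outside `S` of
`Sym^{m_1} ⊗ ⋯ ⊗ Sym^{m_r}` in the unitary normalisation. `A = E_1 × E_2` or `A` with real multiplication:
the Sato-Tate group is (for the generic ones) `SU(2) × SU(2)`, the classes `s(v)` are given by the pairs of
angles.

Serre's criterion: if all `L(s, m)`, `m ≠ 0`, are holomorphic and not zero on the line `Re s = 1`, then the
angles are equidistributed for the product of the Sato-Tate measures. Here only MEROMORPHY near the points of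
the line is assumed: zeros and poles of every order are allowed a priori. The theorem says that almost
nothing else can happen.

Theorem. Assume that the functions `L(s, m)`, `m ≠ 0`, have local meromorphic continuations to the points of
the line `Re s = 1` and that `L(s, Sym² of the i-th system)` has at the one point `s = 1` neither a zero nor a
pole, for every `i`.

1. For every `i` one of the following is true:
   * (Sato-Tate) all `L(s, Sym^n)`, `n ≥ 1`, are holomorphic and not zero on the whole line, and the
     `θ_i(v)` are equidistributed for `2/π sin² θ dθ` for the natural density;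
   * (the law of complex multiplication by a field not in `K`) the means of `cos n θ_i(v)` tend to
     `cos (n π / 2) / 2` for all `n ≥ 1`: half of the uniform law and half of the mass at `π/2`;
   * (finite) there is an `N ≥ 1` such that `sin² (N θ_i(v) / 2)` has the mean `0`: the angles
     accumulate, up to a set of primes of density zero, only at the multiples of `2π/N`.
2. If all `r` systems are in the first case, then either all `L(s, m)`, `m ≠ 0`, are holomorphic and not zero on
   the whole line and the `r`-tuples of angles are equidistributed for the product of the Sato-Tate measures,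
   for the natural density (the joint Sato-Tate law), or there are `i ≠ j` such that
   `L(s, Sym² ⊗ Sym²)` of the two has a simple pole at `s = 1` and `(t_i(v)² - t_j(v)²)²` has the mean `0`,
   `t_i(v) = 2 cos θ_i(v) = a_i(v)/√q_v`: the systems `i` and `j` agree in density up to signs.

The means in 1 (second and third case) and in the last case of 2 are in the sense of the analytic
density, with the weights `q_v^{-1-ε}/log (1/ε)`, `ε → 0`.

So for every product of elliptic curves over every number field, and every `r`, the joint Sato-Tate law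
is a consequence of meromorphic continuation alone, once a few degenerate cases are excluded. For `r ≥ 3` the
continuation is an open problem even over `ℚ`, for `r = 1` it is open if `K` is not totally real and not a
CM field; the theorem says that holomorphy and nonvanishing need not be proved.

Proof. The order of `L(s, m)` at `s = 1` is an integer `-c(m)`, and `c(m)` is the mean of the character
`χ_m = ∏ S_{m_i}(t_i)`. So the means `a(n)` of `2 cos n θ_i` are integers, `a(0) = 2`, `a(2) = -1`, and the
quadratic form `∑ u_k u_l a(k - l)` on `ℤ[x, 1/x]` is positive semidefinite: it is an even integral lattice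
generated by a vector of norm `2` and its translates. If the form has a null vector then `a` is periodic,
which is the third case. If the form is definite, then the vectors of norm `2` and their inner products
`0, ±1, ±2` determine `a`: `a(n) = 0` for `n ≠ 0, ±2`, or `a(2n) = (-1)^n`, `a(2n + 1) = 0` (root systems of the types
`A_∞` and `D_∞`). For 2 we take a minimal `m` with `c(m) ≠ 0` and show with the equality in the inequality of Cauchy
and Schwarz and the fourth moments `∫ S_a⁴ = a + 1` that `m = 2 e_i + 2 e_j` occurs. The other points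
`1 + iτ` of the line: the order is minus the mean of `χ_m cos (τ log q_v)`, which is at most `√(1 · 1/2) < 1` in
absolute value, and an integer. The natural density is the theorem of Wiener and Ikehara.
-/

set_option autoImplicit false

namespace Pool.Agent.Results.MP_6dc561_nt.MeromorphyDecides

open NumberField IsDedekindDomain Filter Topology MeasureTheory
open Pool.Agent.TH861.GL3 (PL qq)
open Pool.Agent.TH553.ST (mn)
open Pool.Agent.Run7.h641.CT (Continues)
open Pool.Agent.Run7.h641.ST (mean stMeasure)

/-- the angles: `θ_i(v) ∈ [0, π]`, `a_i(v) = 2 √q_v cos θ_i(v)` -/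
noncomputable def ang {K : Type} [Field K] [NumberField K] {r : ℕ}
    (a : Fin r → HeightOneSpectrum (𝓞 K) → ℝ) (v : HeightOneSpectrum (𝓞 K)) (i : Fin r) : ℝ :=
  Real.arccos (a i v / (2 * Real.sqrt (qq v)))

/-- the `L`-function of `Sym^{m_1} ⊗ ⋯ ⊗ Sym^{m_r}` outside `S`, in the unitary normalisation:
`∏_{v ∉ S} ∏_{0 ≤ j_i ≤ m_i} (1 - e^{i ∑ (m_i - 2 j_i) θ_i(v)} q_v^{-s})⁻¹` -/
noncomputable def L {K : Type} [Field K] [NumberField K] {r : ℕ}
    (a : Fin r → HeightOneSpectrum (𝓞 K) → ℝ)
    (S : Finset (HeightOneSpectrum (𝓞 K))) (m : Fin r → ℕ) (s : ℂ) : ℂ :=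
  ∏' v : PL S, ∏ j : (∀ i, Fin (m i + 1)), (1 - Complex.exp
    (((∑ i, ((m i : ℝ) - 2 * (j i : ℕ)) * ang a v.1 i : ℝ) : ℂ) * Complex.I) * (qq v.1 : ℂ) ^ (-s))⁻¹

/-- at every point of the line `Re s = 1` there is a local meromorphic continuation of `L(s, m)`
without zero and pole -/
def Regular {K : Type} [Field K] [NumberField K] {r : ℕ} (a : Fin r → HeightOneSpectrum (𝓞 K) → ℝ)
    (S : Finset (HeightOneSpectrum (𝓞 K))) (m : Fin r → ℕ) : Prop :=
  ∀ τ : ℝ, ∃ Λ : ℂ → ℂ, Continues Λ (L a S m) (1 + τ * Complex.I) ∧
    meromorphicOrderAt Λ (1 + τ * Complex.I) = 0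

/-- Meromorphy on the line `Re s = 1` decides the Sato-Tate law. -/
theorem result (K : Type) [Field K] [NumberField K] (r : ℕ)
    (a : Fin r → HeightOneSpectrum (𝓞 K) → ℝ) (S : Finset (HeightOneSpectrum (𝓞 K)))
    (ha : ∀ (i : Fin r) (v : PL S), |a i v.1| ≤ 2 * Real.sqrt (qq v.1))
    (h1 : ∀ m : Fin r → ℕ, m ≠ 0 → ∀ τ : ℝ, ∃ Λ : ℂ → ℂ, Continues Λ (L a S m) (1 + τ * Complex.I))
    (h2 : ∀ i, ∃ Λ : ℂ → ℂ, Continues Λ (L a S (Pi.single i 2)) 1 ∧ meromorphicOrderAt Λ 1 = 0) :
    (∀ (i : Fin r) (v : PL S), a i v.1 = 2 * Real.sqrt (qq v.1) * Real.cos (ang a v.1 i)) ∧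
    (∀ i,
      ((∀ n : ℕ, 0 < n → Regular a S (Pi.single i n)) ∧
        ∀ f : ℝ → ℝ, Continuous f →
          Tendsto (mn fun v => f (2 * Real.cos (ang a v i))) atTop (𝓝 (∫ x, f x ∂stMeasure))) ∨
      (∀ n : ℕ, 0 < n →
        Tendsto (mean fun v : PL S => Real.cos (n * ang a v.1 i)) (𝓝[>] 0)
          (𝓝 (Real.cos (n * Real.pi / 2) / 2))) ∨
      (∃ N : ℕ, 0 < N ∧
        Tendsto (mean fun v : PL S => Real.sin (N * ang a v.1 i / 2) ^ 2) (𝓝[>] 0) (𝓝 0))) ∧
    ((∀ i, ∀ n : ℕ, 0 < n → Regular a S (Pi.single i n)) →
      ((∀ m : Fin r → ℕ, m ≠ 0 → Regular a S m) ∧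
        ∀ F : (Fin r → ℝ) → ℝ, Continuous F →
          Tendsto (mn fun v => F fun i => 2 * Real.cos (ang a v i)) atTop
            (𝓝 (∫ x, F x ∂(Measure.pi fun _ => stMeasure)))) ∨
      (∃ i j, i ≠ j ∧
        (∀ Λ : ℂ → ℂ, Continues Λ (L a S (Pi.single i 2 + Pi.single j 2)) 1 →
          meromorphicOrderAt Λ 1 = ((-1 : ℤ) : WithTop ℤ)) ∧
        Tendsto (mean fun v : PL S =>
          ((2 * Real.cos (ang a v.1 i)) ^ 2 - (2 * Real.cos (ang a v.1 j)) ^ 2) ^ 2) (𝓝[>] 0)
          (𝓝 0))) := by
  refine ⟨fun i v => ?_, Pool.Agent.Run7.h641.ST.main Pool.Agent.Run7.h863.ST.t_Z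
    Pool.Agent.Run7.h300.ST.t_N Pool.Agent.Run7.h863.ST.t_W S (ang a) h1 h2⟩
  have hq : 0 < Real.sqrt (qq v.1 : ℝ) := Real.sqrt_pos.2 (Pool.Agent.TH861.GL3.qq_pos v.1)
  have h4 := ha i v
  rw [abs_le] at h4
  unfold ang
  rw [Real.cos_arccos]
  · field_simp
  · rw [le_div_iff₀ (by positivity)]
    linarith [h4.1]
  · rw [div_le_iff₀ (by positivity)]
    linarith [h4.2]

end Pool.Agent.Results.MP_6dc561_nt.MeromorphyDecides
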