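import Pool.Agent.Run7.h876.SU.Fin

/-!
# The normal law of the Sato-Tate sums of abelian surfaces, uniformly in arbitrary weights

Let `F` be a number field. For `c ∈ 𝓞_F ^ 5` let `A_c` be the Jacobian of the smooth projective curve
`y² = x⁵ + c₄ x⁴ + ... + c₀` of genus `2`; the Sato-Tate group of the generic member of this family of all monic quintics is `USp(4)`.
For a place `v` of good reduction let `1 + a₁ T + a₂ T² + a₁ T³ + T⁴` be the characteristic polynomial of the class `s(v)`. The
question asks whether `∑ χ(s(v)) = o(π_F(Z))`, over `Nv ≤ Z`, for all nontrivial irreducible characters `χ`. The first of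
these characters are, up to a sign, `a₁`, `a₂ - 1` and `a₁² - a₂`, of the dimensions `4`, `5` and `10`; we also consider
`a₁³ - 3 a₁`, which is up to a sign the sum of the character of `Sym³` and twice the one of the other new constituent of the
third power, so its norm in `L²(USp(4))` is `5`.

We show that the sums of these characters over the primes of the members of the family are jointly independent and normally
distributed, with the variance predicted by `USp(4)`, and this with ARBITRARY weights on the primes:

`S(c) = ∑_v (w₀(v) a₁(v) + w₁(v) (a₂(v) - 1) + w₂(v) (a₁(v)² - a₂(v)) + w₃(v) (a₁(v)³ - 3 a₁(v)))`, `Nv ≤ Z`, `v` good,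

`V = ∑_v (w₀(v)² + w₁(v)² + w₂(v)² + 5 w₃(v)²)`, `Nv ≤ Z`, for any real `w_i(v)`, `|w_i(v)| ≤ 1`.

1. `P(S(c) ≤ a √V) → Φ(a)` as `V → ∞`, over the `c` in any boxes whose sides are at least `Z^C` (`C` depends on the
precision only), uniformly in `Z`, in the box and in the weights.
2. `P(|S(c)| ≥ y √V) ≤ A exp(-y² / A)` for all `y ≥ 0`, all `Z`, all weights with `V ≥ V₀` and all boxes whose sides
are at least `Z^(A (1 + y²))`.

For example the weights may be the indicator functions of arbitrary sets of primes, or different multiples for the four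
characters on different sets of primes. Proof. By the library of helper328 and the starting library the moments of `a₁^i a₂^j` over
all monic quintics over a finite field with `q` elements are those of `USp(4)` up to `O(1/q)`, for
`i + 2 j ≤ 5` and for `i ≤ 7`, `j = 0`. The values at different places are nearly independent: moments up to the order `2 k`
over a box with sides at least `Z^(6 k + 1)` are compared with those of independent random variables, for which the
exponential moments are bounded; `k` is a constant in (1) and a multiple of `y²` in (2).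
-/

set_option autoImplicit false
open NumberField IsDedekindDomain

namespace Pool.Agent.Results.MP_6dc561_nt.UniformNormalLaw

open Run7.h876.SU
open Run7.h9.BS (prop Phi)

/-- **The Sato-Tate sums of abelian surfaces with arbitrary weights are normally distributed.** -/
theorem result (F : Type) [Field F] [NumberField F] (ι : Type) [Fintype ι] [DecidableEq ι] (ω : Module.Basis ι ℤ (𝓞 F)) :
    (∀ a ε : ℝ, 0 < ε → ∃ C : ℕ, ∃ V₀ : ℝ, ∀ (Z : ℕ) (w : Fin 4 → HeightOneSpectrum (𝓞 F) → ℝ), (∀ i v, |w i v| ≤ 1) →
      V₀ ≤ variance w Z → ∀ H : Fin 5 → ℕ, (∀ j, Z ^ C ≤ H j) →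
        |prop ω H (smooth F) (fun c => weylSum w Z c ≤ a * Real.sqrt (variance w Z)) - Phi a| ≤ ε) ∧
    (∃ A : ℝ, 0 < A ∧ ∃ V₀ : ℝ, ∀ (Z : ℕ) (w : Fin 4 → HeightOneSpectrum (𝓞 F) → ℝ), (∀ i v, |w i v| ≤ 1) →
      V₀ ≤ variance w Z → ∀ y : ℝ, 0 ≤ y → ∀ H : Fin 5 → ℕ, (∀ j, (Z : ℝ) ^ (A * (1 + y ^ 2)) ≤ H j) →
        prop ω H (smooth F) (fun c => y * Real.sqrt (variance w Z) ≤ |weylSum w Z c|) ≤ A * Real.exp (-(y ^ 2 / A))) :=
  ⟨fun a _ hε => jac_clt ω a hε, jac_tail ω⟩

end Pool.Agent.Results.MP_6dc561_nt.UniformNormalLaw
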