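import Mathlib
import Pool.Agent.Run7.h911.WR4

/-!
# The Sato-Tate conjecture for abelian surfaces: Weil restrictions from quadratic extensions of mixed signature

Let `F` be a totally real field, `K` a quadratic extension of `F` (`K` not necessarily totally real or CM: there may be
real and complex places), and `E` an elliptic curve over `K` without complex multiplication which is not isogenous
over an algebraic closure to its conjugate `E'` over `F`. The Weil restriction `A = Res_{K/F} E` is an abelian
surface over `F`; its Sato-Tate group has the identity component `SU(2) × SU(2)` and two components. At the primes of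
`F` which split in `K`, say into `w` and `w'`, the normalized Frobenius element of `A` has the eigenvalues
`e^{± i θ_0(w)}`, `e^{± i θ_1(w)}`, where `θ_0(w)` is the Frobenius angle of `E` at `w` and `θ_1(w)` the one of `E'` at `w`,
that is of `E` at `w'`. (At the inert primes the trace `a_1` is zero.) Put `t_0(w) = 2 cos θ_0(w)`, `t_1(w) = 2 cos θ_1(w)`,
`a_1 = t_0 + t_1`, `a_2 = 2 + t_0 t_1`. For `K` of mixed signature neither the equidistribution of the pairs
`(t_0(w), t_1(w))`, nor the Sato-Tate conjecture for `E` over `K` alone, is known for any such `A`: the automorphy of high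
symmetric powers is missing. We prove for every such surface, with natural densities relative to the primes `w` of `K`
in an arbitrary class of an arbitrary ray class group of `K`:

* the averages of `t_0^b t_1^c`, `b, c ≤ 4`, are the predicted ones (the products of Catalan numbers);
* each of the four sign patterns of `(t_0(w), t_1(w))` has a lower density of at least `1/20`; so the traces of Frobenius
  of `E` at two conjugate primes have opposite signs, the positive one at the prime of the given class, for a lower
  density of at least `1/20` of the primes of the class;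
* every open half plane whose boundary contains the origin contains the point `(t_0(w), t_1(w))` for a lower density
  of at least `37/200`; in particular each of `a_1 > 0`, `a_1 < 0`, and `t_0 > t_1`, `t_0 < t_1`;
* `A` has more than `q²` points, and less than `q²` points, for a lower density of at least `37/200` each;
* `a_2 > 2`, and `a_2 < 2`, for a lower density of at least `23/200` each;
* the lower means of `|a_1|` and of `|a_2 - 2|` are at least `0.89` and `0.49`.

The structure `Conj` (`Pool/Agent/Run7/h911/WR1.lean`) lists what is used: the `L`-functions of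
`Sym^b E ⊗ Sym^c E' ⊗ χ`, `b, c ≤ 4`, `χ` a character of the ray class group, not all trivial, have local continuations
without zeros and poles at the points of the line `Re s = 1`. This is known: `A` is potentially automorphic over
totally real extensions of `F` (Boxer, Calegari, Gee, Pilloni: elliptic curves over quadratic extensions of totally real
fields are potentially modular), the symmetric powers up to the fourth one are automorphic (Gelbart, Jacquet; Kim,
Shahidi; Kim), the products of two of them are treated by Rankin-Selberg theory (Jacquet, Piatetski-Shapiro, Shalika,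
Shahidi), and Brauer's theorem leads back to `K`.

The sign patterns need a polynomial below the indicator function of a quadrant; for degree four in each variable we
take `(F(X) F(Y) - Q(X) Q(Y)) / 9.47²` with `F(X) = X (9/4 - X) (X + 7/5)²`, which has the sign of `X` on `[-2, 2]`, and
with `Q ≥ 0`, `Q ≥ - F` on `[-2, 0]`: if both variables are negative the product of the two negative values of `F`
is compensated by `Q Q`.
-/

set_option autoImplicit false

namespace Pool.Agent.Results.MP_6dc561_nt.WeilRestrictions

open NumberField IsDedekindDomain Filter Topology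
open Run7.h911.WR (Conj)
open Run7.h911.NT (avg b2r)
open Pool.Agent.W540.BE (upto mem_upto)

variable {K : Type} [Field K] [NumberField K] {G : Type} [AddCommGroup G] [Fintype G]

/-- the norm of a prime -/
noncomputable def q (w : HeightOneSpectrum (𝓞 K)) : ℕ := Ideal.absNorm w.asIdeal

/-- the proportion of the primes with `P` among the primes of norm at most `N` in the class `a` -/
noncomputable def density (g : HeightOneSpectrum (𝓞 K) → G) (a : G) (P : HeightOneSpectrum (𝓞 K) → Prop)
    (N : ℕ) : ℝ :=
  (Nat.card {w : HeightOneSpectrum (𝓞 K) // q w ≤ N ∧ g w = a ∧ P w} : ℝ) /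
    Nat.card {w : HeightOneSpectrum (𝓞 K) // q w ≤ N ∧ g w = a}

/-- the average of `f` over the primes of norm at most `N` in the class `a` -/
noncomputable def mean (g : HeightOneSpectrum (𝓞 K) → G) (a : G) (f : HeightOneSpectrum (𝓞 K) → ℝ)
    (N : ℕ) : ℝ :=
  (∑ᶠ w ∈ {w : HeightOneSpectrum (𝓞 K) | q w ≤ N ∧ g w = a}, f w) /
    Nat.card {w : HeightOneSpectrum (𝓞 K) // q w ≤ N ∧ g w = a}

/-- the normalized traces `t_0 = 2 cos θ_0` and `t_1 = 2 cos θ_1` -/
noncomputable def t (θ : Fin 2 → HeightOneSpectrum (𝓞 K) → ℝ) (i : Fin 2)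
    (w : HeightOneSpectrum (𝓞 K)) : ℝ :=
  2 * Real.cos (θ i w)

/-- the first coefficient of the characteristic polynomial -/
noncomputable def a1 (θ : Fin 2 → HeightOneSpectrum (𝓞 K) → ℝ) (w : HeightOneSpectrum (𝓞 K)) : ℝ :=
  t θ 0 w + t θ 1 w

/-- the second coefficient of the characteristic polynomial -/
noncomputable def a2 (θ : Fin 2 → HeightOneSpectrum (𝓞 K) → ℝ) (w : HeightOneSpectrum (𝓞 K)) : ℝ :=
  2 + t θ 0 w * t θ 1 w

/-- the number of points of the reduction of `A`, the product of the `1 - √q e^{± i θ_j}` -/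
noncomputable def points (θ : Fin 2 → HeightOneSpectrum (𝓞 K) → ℝ) (w : HeightOneSpectrum (𝓞 K)) : ℝ :=
  (1 - √(q w) * t θ 0 w + q w) * (1 - √(q w) * t θ 1 w + q w)

/-- the moments `1, 0, 1, 0, 2` of order at most four of the trace on `SU(2)` -/
def moment (b : ℕ) : ℝ := if b = 0 then 1 else if b = 2 then 1 else if b = 4 then 2 else 0

omit [AddCommGroup G] [Fintype G] in
theorem card_class (g : HeightOneSpectrum (𝓞 K) → G) (a : G) (P : HeightOneSpectrum (𝓞 K) → Prop)
    (N : ℕ) : (Nat.card {v : HeightOneSpectrum (𝓞 K) // q v ≤ N ∧ g v = a ∧ P v} : ℝ) =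
      avg (fun v => b2r (g v = a ∧ P v)) N * (upto K N).card := by
  classical
  have h2 : Nat.card {v : HeightOneSpectrum (𝓞 K) // q v ≤ N ∧ g v = a ∧ P v} =
      ((upto K N).filter fun v => g v = a ∧ P v).card := Nat.subtype_card _ fun v => by
    rw [Finset.mem_filter]
    exact and_congr_left fun _ => mem_upto
  rw [h2, Finset.card_filter]
  unfold avg
  by_cases h0 : ((upto K N).card : ℝ) = 0
  · rw [h0, mul_zero]
    have : upto K N = ∅ := Finset.card_eq_zero.1 (by exact_mod_cast h0)
    rw [this]
    simp
  · rw [div_mul_cancel₀ _ h0]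
    push_cast
    refine Finset.sum_congr rfl fun v _ => ?_
    unfold b2r
    congr

omit [AddCommGroup G] [Fintype G] in
theorem card_class' (g : HeightOneSpectrum (𝓞 K) → G) (a : G) (N : ℕ) :
    (Nat.card {v : HeightOneSpectrum (𝓞 K) // q v ≤ N ∧ g v = a} : ℝ) =
      avg (fun v => Run7.h911.AS.cl g a v) N * (upto K N).card := by
  have h := card_class g a (fun _ => True) N
  simp only [and_true] at h
  exact h

theorem density_eq (g : HeightOneSpectrum (𝓞 K) → G) (a : G) (P : HeightOneSpectrum (𝓞 K) → Prop)
    {N : ℕ} (hN : (0 : ℝ) < (upto K N).card) : density g a P N =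
      avg (fun v => b2r (g v = a ∧ P v)) N / avg (fun v => Run7.h911.AS.cl g a v) N := by
  unfold density
  rw [card_class, card_class', mul_div_mul_right _ _ hN.ne']

theorem mean_eq (g : HeightOneSpectrum (𝓞 K) → G) (a : G) (f : HeightOneSpectrum (𝓞 K) → ℝ)
    {N : ℕ} (hN : (0 : ℝ) < (upto K N).card) : mean g a f N =
      avg (fun v => Run7.h911.AS.cl g a v * f v) N / avg (fun v => Run7.h911.AS.cl g a v) N := by
  classical
  unfold mean
  have h2 : {v : HeightOneSpectrum (𝓞 K) | q v ≤ N ∧ g v = a} =
      (((upto K N).filter fun v => g v = a : Finset _) : Set (HeightOneSpectrum (𝓞 K))) := by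
    ext v
    rw [Set.mem_ofPred_eq, Finset.mem_coe, Finset.mem_filter]
    exact and_congr_left fun _ => mem_upto.symm
  rw [card_class', h2, finsum_mem_coe_finset, Finset.sum_filter]
  have h3 : ∑ v ∈ upto K N, (if g v = a then f v else 0) =
      avg (fun v => Run7.h911.AS.cl g a v * f v) N * (upto K N).card := by
    unfold avg
    rw [div_mul_cancel₀ _ hN.ne']
    refine Finset.sum_congr rfl fun v _ => ?_
    by_cases hv : g v = a
    · simp [Run7.h911.AS.cl, b2r, hv]
    · simp [Run7.h911.AS.cl, b2r, hv]
  rw [h3, mul_div_mul_right _ _ hN.ne']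

variable {θ : Fin 2 → HeightOneSpectrum (𝓞 K) → ℝ} {g : HeightOneSpectrum (𝓞 K) → G}

theorem class_pos (h : Conj θ g) (a : G) :
    ∀ᶠ N : ℕ in atTop, 0 < avg (fun v => Run7.h911.AS.cl g a v) N := by
  have h1 := Run7.h911.WR.class_one h a
  have hG : (0 : ℝ) < Fintype.card G := by exact_mod_cast Fintype.card_pos
  exact h1.eventually (lt_mem_nhds (by positivity))

theorem lower (h : Conj θ g) (a : G) {P : HeightOneSpectrum (𝓞 K) → Prop} {c c' : ℝ} (hc : c < c')
    (hP : ∀ᶠ N : ℕ in atTop, c' / Fintype.card G ≤ avg (fun v => b2r (g v = a ∧ P v)) N) :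
    ∀ᶠ N : ℕ in atTop, c ≤ density g a P N := by
  have h1 := (Run7.h911.WR.class_one h a).const_mul c
  have hG : (0 : ℝ) < Fintype.card G := by exact_mod_cast Fintype.card_pos
  have h2 : c * (1 / (Fintype.card G : ℝ)) < c' / Fintype.card G := by
    rw [mul_one_div]
    exact div_lt_div_of_pos_right hc hG
  filter_upwards [hP, h1.eventually (gt_mem_nhds h2), class_pos h a, Run7.h911.NT.card_pos (K := K)]
    with N h3 h4 h5 h6
  rw [density_eq g a P h6, le_div_iff₀ h5]
  exact h4.le.trans h3

theorem lower_mean (h : Conj θ g) (a : G) {f : HeightOneSpectrum (𝓞 K) → ℝ} {c c' : ℝ} (hc : c < c')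
    (hP : ∀ᶠ N : ℕ in atTop, c' / Fintype.card G ≤ avg (fun v => Run7.h911.AS.cl g a v * f v) N) :
    ∀ᶠ N : ℕ in atTop, c ≤ mean g a f N := by
  have h1 := (Run7.h911.WR.class_one h a).const_mul c
  have hG : (0 : ℝ) < Fintype.card G := by exact_mod_cast Fintype.card_pos
  have h2 : c * (1 / (Fintype.card G : ℝ)) < c' / Fintype.card G := by
    rw [mul_one_div]
    exact div_lt_div_of_pos_right hc hG
  filter_upwards [hP, h1.eventually (gt_mem_nhds h2), class_pos h a, Run7.h911.NT.card_pos (K := K)]
    with N h3 h4 h5 h6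
  rw [mean_eq g a f h6, le_div_iff₀ h5]
  exact h4.le.trans h3

theorem moment_eq {b : ℕ} (hb : b ≤ 4) : Run7.h911.NT.β b 0 = moment b := by
  interval_cases b <;> simp [moment, Run7.h911.NT.β]

theorem means (h : Conj θ g) (a : G) {b c : ℕ} (hb : b ≤ 4) (hc : c ≤ 4) :
    Tendsto (mean g a fun w => t θ 0 w ^ b * t θ 1 w ^ c) atTop (𝓝 (moment b * moment c)) := by
  have h1 := Run7.h911.WR.class_one h a
  have hG : (0 : ℝ) < Fintype.card G := by exact_mod_cast Fintype.card_pos
  have h2 := (Run7.h911.WR.mono h a hb hc).div h1 (by positivity)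
  rw [moment_eq hb, moment_eq hc] at h2
  have e : moment b * moment c / Fintype.card G / (1 / (Fintype.card G : ℝ)) =
      moment b * moment c := by
    field_simp
  rw [e] at h2
  refine h2.congr' ?_
  filter_upwards [Run7.h911.NT.card_pos (K := K)] with N hN
  rw [mean_eq g a _ hN]
  rfl

/-- **Every Weil restriction of an elliptic curve from a quadratic extension of a totally real field.** `θ 0 w` and
`θ 1 w` are the angles of `E` and of its conjugate `E'` at the prime `w` of `K`, and `g w` is the class of `w` in the ray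
class group `G` of `K`. -/
theorem result (h : Conj θ g) (a : G) :
    -- the means
    (∀ b c : ℕ, b ≤ 4 → c ≤ 4 →
      Tendsto (mean g a fun w => t θ 0 w ^ b * t θ 1 w ^ c) atTop (𝓝 (moment b * moment c))) ∧
    -- the four sign patterns
    (∀ s s' : ℝ, (s = 1 ∨ s = -1) → (s' = 1 ∨ s' = -1) →
      ∀ᶠ N : ℕ in atTop, 1 / 20 ≤ density g a (fun w => 0 < s * t θ 0 w ∧ 0 < s' * t θ 1 w) N) ∧
    -- half planes
    (∀ α γ : ℝ, (α ≠ 0 ∨ γ ≠ 0) →
      ∀ᶠ N : ℕ in atTop, 37 / 200 ≤ density g a (fun w => 0 < α * t θ 0 w + γ * t θ 1 w) N) ∧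
    (∀ s : ℝ, (s = 1 ∨ s = -1) →
      -- the sign of the trace, and the number of points
      (∀ᶠ N : ℕ in atTop, 37 / 200 ≤ density g a (fun w => 0 < s * a1 θ w) N) ∧
      (∀ᶠ N : ℕ in atTop, 37 / 200 ≤ density g a (fun w => 0 < s * ((q w : ℝ) ^ 2 - points θ w)) N) ∧
      -- the second coefficient
      (∀ᶠ N : ℕ in atTop, 23 / 200 ≤ density g a (fun w => 0 < s * (a2 θ w - 2)) N)) ∧
    -- the absolute values
    (∀ᶠ N : ℕ in atTop, 0.89 ≤ mean g a (fun w => |a1 θ w|) N) ∧
    (∀ᶠ N : ℕ in atTop, 0.49 ≤ mean g a (fun w => |a2 θ w - 2|) N) := by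
  refine ⟨fun b c hb hc => means h a hb hc, fun s s' hs hs' => ?_, fun α γ hαγ => ?_,
    fun s hs => ⟨?_, ?_, ?_⟩, ?_, ?_⟩
  · exact lower h a (c' := 0.0505) (by norm_num) (Run7.h911.WR.four h a hs hs' (by norm_num))
  · exact lower h a (c' := 0.1851) (by norm_num) (Run7.h911.WR.half_plane' h a hαγ (by norm_num))
  · have hs0 : s ≠ 0 := by rcases hs with h | h <;> rw [h] <;> norm_num
    have h1 := lower h a (c := 37 / 200) (c' := 0.1851) (by norm_num)
      (Run7.h911.WR.half_plane' h a (α := s) (γ := s) (Or.inl hs0) (by norm_num))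
    have e : (fun w => 0 < s * a1 θ w) =
        fun w => 0 < s * Run7.h911.WR.x θ w + s * Run7.h911.WR.y θ w := by
      funext w
      rw [← mul_add]
      rfl
    rw [e]
    exact h1
  · have h1 := lower h a (c := 37 / 200) (c' := 0.1851) (by norm_num)
      (Run7.h911.WR.pts_law h a hs (by norm_num))
    have e : (fun w => 0 < s * ((q w : ℝ) ^ 2 - points θ w)) =
        fun w => 0 * ((Pool.Agent.W540.BE.nm K w : ℝ) * Real.sqrt (Pool.Agent.W540.BE.nm K w)) <
          s * ((Pool.Agent.W540.BE.nm K w : ℝ) ^ 2 - Run7.h911.AS.pts θ w) := by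
      funext w
      rw [zero_mul]
      have e1 : points θ w = Run7.h911.AS.pts θ w := by
        unfold points Run7.h911.AS.pts t
        change (1 - √(Pool.Agent.W540.BE.nm K w) * (2 * Real.cos (θ 0 w)) + (Pool.Agent.W540.BE.nm K w : ℝ)) *
          (1 - √(Pool.Agent.W540.BE.nm K w) * (2 * Real.cos (θ 1 w)) + (Pool.Agent.W540.BE.nm K w : ℝ)) = _
        ring
      rw [e1]
      rfl
    rw [e]
    exact h1
  · have h1 := lower h a (c := 23 / 200) (c' := 0.1152) (by norm_num)
      (Run7.h911.WR.prod_pos h a hs (by norm_num))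
    have e : (fun w => 0 < s * (a2 θ w - 2)) =
        fun w => 0 < s * (Run7.h911.WR.x θ w * Run7.h911.WR.y θ w) := by
      funext w
      have e1 : a2 θ w - 2 = Run7.h911.WR.x θ w * Run7.h911.WR.y θ w := by
        unfold a2 t Run7.h911.WR.x Run7.h911.WR.y
        ring
      rw [e1]
    rw [e]
    exact h1
  · exact lower_mean h a (c' := 0.8935) (by norm_num) (Run7.h911.WR.abs_sum h a (by norm_num))
  · have h1 := lower_mean h a (c := 0.49) (c' := 0.495) (by norm_num)
      (Run7.h911.WR.abs_prod h a (by norm_num))
    have e : (fun w => |a2 θ w - 2|) =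
        fun w => |Run7.h911.WR.x θ w * Run7.h911.WR.y θ w| := by
      funext w
      have e1 : a2 θ w - 2 = Run7.h911.WR.x θ w * Run7.h911.WR.y θ w := by
        unfold a2 t Run7.h911.WR.x Run7.h911.WR.y
        ring
      rw [e1]
    rw [e]
    exact h1

end Pool.Agent.Results.MP_6dc561_nt.WeilRestrictions
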